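import Pool.Agent.Helper65.RT.Goals

/-!
# The procedures of the simulation of a parallel machine with adaptive reads

The statements `AGREE_stmt`, `PROC_stmt` and `FINAL_stmt` of `Helper65/RT/Goals.lean` (adapted from
`Helper81/Tok3/PROC.lean`).
-/

namespace Pool.Agent.Helper30.RT

open Pool.Agent.Helper65.LinSpace Pool.Agent.Helper28.Ram Finset
open Pool.Agent.Helper28.Ram.Mach (sgz)
open Pool.Agent.Helper81.Tok3.Mach (addR scaR)
open Pool.Agent.Helper65.RT

variable {m : Pool.Agent.Helper65.RT.Mach} {p : ℕ} {l : ℕ}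
  {s t u : Pool.Agent.Helper65.RT.Mach.St p}

theorem agree_refl (s : Pool.Agent.Helper65.RT.Mach.St p) : m.Agree l s s :=
  ⟨rfl, fun _ _ => ⟨rfl, rfl, rfl⟩, fun _ _ => ⟨rfl, rfl⟩⟩

theorem agree_trans (h : m.Agree l s t) (h' : m.Agree l t u) : m.Agree l s u := by
  obtain ⟨a1, a2, a3⟩ := h
  obtain ⟨b1, b2, b3⟩ := h'
  refine ⟨a1.trans b1, fun k hk => ?_, fun k hk => ?_⟩
  · obtain ⟨c1, c2, c3⟩ := a2 k hk
    obtain ⟨d1, d2, d3⟩ := b2 k hk
    exact ⟨c1.trans d1, c2.trans d2, c3.trans d3⟩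
  · obtain ⟨c1, c2⟩ := a3 k hk
    obtain ⟨d1, d2⟩ := b3 k hk
    exact ⟨c1.trans d1, c2.trans d2⟩

theorem agree_call (h : m.Agree l s t) (c i g : ℕ) :
    m.Agree l (s.call l c i g) (t.call l c i g) := by
  obtain ⟨a1, a2, a3⟩ := h
  refine ⟨a1, fun k hk => ?_, fun k hk => a3 k hk⟩
  obtain ⟨c1, c2, c3⟩ := a2 k hk
  by_cases hkl : k = l
  · subst hkl
    simp [Pool.Agent.Helper65.RT.Mach.St.call]
  · simp [Pool.Agent.Helper65.RT.Mach.St.call, Function.update_of_ne hkl, c1, c2, c3]

theorem agree_R (h : m.Agree l s t) (R : ℕ → ZMod p) :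
    m.Agree l { s with R := R } { t with R := R } :=
  ⟨rfl, fun k hk => h.2.1 k hk, fun k hk => h.2.2 k hk⟩

theorem agree_query (h : m.Agree l s t) (k x y : ℕ) :
    m.Agree l (s.query k x y) (t.query k x y) := by
  refine ⟨h.1, fun k' hk => h.2.1 k' hk, fun k' hk => ?_⟩
  obtain ⟨c1, c2⟩ := h.2.2 k' hk
  by_cases hkl : k' = k
  · subst hkl
    simp [Pool.Agent.Helper65.RT.Mach.St.query]
  · simp [Pool.Agent.Helper65.RT.Mach.St.query, Function.update_of_ne hkl, c1, c2]

theorem le_succ_div (m : Pool.Agent.Helper65.RT.Mach) (l : ℕ) :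
    l + 1 ≤ (l / (m.G + 2) + 1) * (m.G + 2) := by
  have := Nat.div_add_mod l (m.G + 2)
  have := Nat.mod_lt l (show 0 < m.G + 2 by omega)
  rw [Nat.add_mul, Nat.one_mul, Nat.mul_comm]
  omega

theorem agree : Helper65.RT.AGREE_stmt := by
  intro m p _ l s t h
  obtain ⟨c1, c2, c3⟩ := h.2.1 (l + 1) (by omega)
  have hR := h.1
  obtain ⟨hq, hsl⟩ := h.2.2 (l / (m.G + 2) + 1) ((Nat.le_succ l).trans (le_succ_div m l))
  have htg : m.tg s (l / (m.G + 2) + 1) = m.tg t (l / (m.G + 2) + 1) := by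
    unfold Pool.Agent.Helper65.RT.Mach.tg
    rw [hsl]
  refine ⟨fun j => ?_, ?_, ?_⟩
  · unfold Pool.Agent.Helper65.RT.Mach.op
    split_ifs with hl
    · unfold Pool.Agent.Helper65.RT.Mach.opE
      rw [c1, c2]
      split_ifs
      · unfold Pool.Agent.Helper65.RT.Mach.opY
        rw [c2, c3, hR, hq]
        split_ifs
        all_goals first
          | exact agree_call (agree_R h _) _ _ _
          | exact agree_call (agree_query h _ _ _) _ _ _
      · rw [c3, hR, hq, htg]
        exact agree_call (agree_R h _) _ _ _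
      · exact agree_call h _ _ _
    · unfold Pool.Agent.Helper65.RT.Mach.opN
      rw [c1, c2, c3, hR]
      split_ifs
      all_goals first
        | exact agree_call h _ _ _
        | exact agree_call (agree_R h _) _ _ _
  · cases l with
    | zero =>
      obtain ⟨e1, e2, e3⟩ := h.2.1 0 le_rfl
      obtain ⟨d1, d2⟩ := h.2.2 0 (by omega)
      have htg0 : m.tg s 0 = m.tg t 0 := by
        unfold Pool.Agent.Helper65.RT.Mach.tg
        rw [d2]
      simp only [Pool.Agent.Helper65.RT.Mach.ideal]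
      rw [e1, e3, d1, hR, htg0]
      split_ifs
      · exact agree_R h _
      · exact h
    | succ l =>
      obtain ⟨e1, e2, e3⟩ := h.2.1 (l + 1) le_rfl
      obtain ⟨hq', hsl'⟩ := h.2.2 (l / (m.G + 2) + 1) (le_succ_div m l)
      have hlo : ∀ i, m.lo s (l / (m.G + 2)) i = m.lo t (l / (m.G + 2)) i := by
        intro i
        unfold Pool.Agent.Helper65.RT.Mach.lo Pool.Agent.Helper65.RT.Mach.tg
        rw [hsl']
      simp only [Pool.Agent.Helper65.RT.Mach.ideal]
      rw [e1, e2, e3, hq', hR, hlo]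
      split_ifs
      · exact agree_R h _
      · exact agree_R h _
      · exact h
  · exact ⟨h.1, fun k hk => h.2.1 k (by omega), fun k hk => h.2.2 k (by omega)⟩

theorem proc (hE : Helper65.RT.ELEV_stmt) (hN : Helper65.RT.NLEV_stmt)
    (hA : Helper65.RT.AGREE_stmt) : Helper65.RT.PROC_stmt := by
  intro m p _ hm hlt l
  induction l with
  | zero =>
    intro s
    exact agree_refl _
  | succ l ih =>
    intro s
    have key : ∀ n, m.Agree l (iter (fun j s => m.proc l (m.op l j s)) n s)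
        (iter (fun j s => m.ideal l (m.op l j s)) n s) := by
      intro n
      induction n with
      | zero => exact agree_refl _
      | succ n ihn =>
        show m.Agree l (m.proc l (m.op l n (iter (fun j s => m.proc l (m.op l j s)) n s)))
          (m.ideal l (m.op l n (iter (fun j s => m.ideal l (m.op l j s)) n s)))
        exact agree_trans (ih _) (hA m p l _ _ ((hA m p l _ _ ihn).1 n)).2.1
    have h1' : m.Agree (l + 1) (m.proc (l + 1) s)
        (iter (fun j s => m.ideal l (m.op l j s)) (m.cnt p l) s) :=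
      (hA m p l _ _ (key (m.cnt p l))).2.2
    by_cases hl : l % (m.G + 2) = 0
    · exact agree_trans h1' (hE m p hm hlt l hl s)
    · exact agree_trans h1' (hN m p hm hlt l hl s)

theorem final (hP : Helper65.RT.PROC_stmt) : Helper65.RT.FINAL_stmt := by
  intro m p _ hm hlt o ho
  rw [(hP m p hm hlt (m.K * (m.G + 2)) (m.st0 p)).1]
  unfold Pool.Agent.Helper65.RT.Mach.st0
  generalize m.K = K
  cases K with
  | zero =>
    have h0 : 0 * (m.G + 2) = 0 := Nat.zero_mul _
    rw [h0]
    simp [Pool.Agent.Helper65.RT.Mach.ideal, Pool.Agent.Helper65.RT.Mach.St.query,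
      Pool.Agent.Helper65.RT.Mach.St.call, addR, sgz, ho, Pool.Agent.Helper65.RT.Mach.tg]
  | succ K =>
    have h0 : (K + 1) * (m.G + 2) = (K * (m.G + 2) + (m.G + 1)) + 1 := by ring
    have hd : (K * (m.G + 2) + (m.G + 1)) / (m.G + 2) = K := by
      rw [Nat.mul_comm, Nat.mul_add_div (by omega), Nat.div_eq_of_lt (by omega)]
      rfl
    have hr : (K * (m.G + 2) + (m.G + 1)) % (m.G + 2) = m.G + 1 := by
      rw [Nat.mul_comm, Nat.mul_add_mod, Nat.mod_eq_of_lt (by omega)]
    rw [h0]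
    simp only [Pool.Agent.Helper65.RT.Mach.ideal, hd, hr]
    simp [Pool.Agent.Helper65.RT.Mach.St.query,
      Pool.Agent.Helper65.RT.Mach.St.call, addR, sgz, ho,
      Pool.Agent.Helper65.RT.Mach.V, Pool.Agent.Helper65.RT.Mach.vn,
      Pool.Agent.Helper65.RT.Mach.T, Pool.Agent.Helper65.RT.Mach.lo,
      Pool.Agent.Helper65.RT.Mach.ln, Pool.Agent.Helper65.RT.Mach.tg]

end Pool.Agent.Helper30.RT
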